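import Pool.Agent.TH87.IS.Defs

set_option autoImplicit false

namespace Pool.Agent.TH87.IS

universe u

variable {G : Type u} [Group G]

/-- Finitely additive probability measures. -/
def Means (G : Type u) : Set (Set G → ℝ) :=
  {m | (∀ A, 0 ≤ m A) ∧ m Set.univ = 1 ∧ ∀ A B, Disjoint A B → m (A ∪ B) = m A + m B}

/-- The action on measures. -/
def act (g : G) : (Set G → ℝ) →L[ℝ] (Set G → ℝ) where
  toFun m := fun A => m {x | g * x ∈ A}
  map_add' _ _ := rfl
  map_smul' _ _ := rfl
  cont := continuous_pi fun _ => continuous_apply _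

lemma act_apply (g : G) (m : Set G → ℝ) (A : Set G) : act g m A = m {x | g * x ∈ A} := rfl

lemma act_act (g h : G) (m : Set G → ℝ) : act g (act h m) = act (g * h) m := by
  funext A
  simp only [act_apply, Set.mem_ofPred_eq, mul_assoc]

lemma act_mem {g : G} {m : Set G → ℝ} (hm : m ∈ Means G) : act g m ∈ Means G := by
  refine ⟨fun A => hm.1 _, ?_, fun A B hAB => ?_⟩
  · rw [act_apply]
    simpa using hm.2.1
  · rw [act_apply, act_apply, act_apply, ← hm.2.2]
    · rfl
    · rw [Set.disjoint_left] at hAB ⊢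
      intro x hx hx'
      exact hAB hx hx'

omit [Group G] in
lemma convex_means : Convex ℝ (Means G) := by
  intro m hm m' hm' a b ha hb hab
  refine ⟨fun A => ?_, ?_, fun A B hAB => ?_⟩
  · simp only [Pi.add_apply, Pi.smul_apply, smul_eq_mul]
    have := hm.1 A
    have := hm'.1 A
    positivity
  · simp only [Pi.add_apply, Pi.smul_apply, smul_eq_mul, hm.2.1, hm'.2.1, mul_one, hab]
  · simp only [Pi.add_apply, Pi.smul_apply, smul_eq_mul, hm.2.2 A B hAB, hm'.2.2 A B hAB]
    ring

omit [Group G] in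
lemma isCompact_means : IsCompact (Means G) := by
  have h1 : IsCompact (Set.pi Set.univ (fun _ : Set G => Set.Icc (0 : ℝ) 1)) :=
    isCompact_univ_pi fun _ => isCompact_Icc
  refine h1.of_isClosed_subset ?_ ?_
  · have h2 : Means G = (⋂ A, {m : Set G → ℝ | 0 ≤ m A}) ∩ ({m | m Set.univ = 1} ∩
        ⋂ A, ⋂ B, {m | Disjoint A B → m (A ∪ B) = m A + m B}) := by
      ext m
      simp only [Means, Set.mem_ofPred_eq, Set.mem_inter_iff, Set.mem_iInter]
    rw [h2]
    refine (isClosed_iInter fun A => isClosed_le continuous_const (continuous_apply A)).inter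
      ((isClosed_eq (continuous_apply _) continuous_const).inter
        (isClosed_iInter fun A => isClosed_iInter fun B => ?_))
    by_cases h : Disjoint A B
    · simp only [h, true_implies]
      exact isClosed_eq (continuous_apply (A ∪ B)) ((continuous_apply A).add (continuous_apply B))
    · simp only [h, false_implies]
      exact isClosed_univ
  · intro m hm A _
    refine ⟨hm.1 A, ?_⟩
    have h2 := hm.2.2 A Aᶜ disjoint_compl_right
    rw [Set.union_compl_self, hm.2.1] at h2
    have := hm.1 Aᶜ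
    linarith

omit [Group G] in
open Classical in
lemma means_nonempty [Nonempty G] : (Means G).Nonempty := by
  obtain ⟨x⟩ := ‹Nonempty G›
  refine ⟨fun A => if x ∈ A then 1 else 0, fun A => ?_, ?_, fun A B hAB => ?_⟩
  · dsimp only
    split_ifs <;> norm_num
  · simp
  · rw [Set.disjoint_left] at hAB
    by_cases h1 : x ∈ A <;> by_cases h2 : x ∈ B
    · exact absurd h2 (hAB h1)
    all_goals simp [h1, h2]

/-- The compact convex invariant sets of measures. -/
def Inv (G : Type u) [Group G] : Set (Set (Set G → ℝ)) :=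
  {Q | Q ⊆ Means G ∧ Q.Nonempty ∧ IsCompact Q ∧ Convex ℝ Q ∧ ∀ g : G, ∀ m ∈ Q, act g m ∈ Q}

lemma exists_minimal : ∃ Q, Minimal (· ∈ Inv G) Q := by
  refine zorn_superset _ fun c hc hchain => ?_
  rcases c.eq_empty_or_nonempty with rfl | hne
  · exact ⟨Means G, ⟨subset_rfl, means_nonempty, isCompact_means, convex_means,
      fun g m hm => act_mem hm⟩, by simp⟩
  · refine ⟨⋂₀ c, ⟨?_, ?_, ?_, ?_, ?_⟩, fun s hs => Set.sInter_subset_of_mem hs⟩
    · obtain ⟨Q, hQ⟩ := hne
      exact (Set.sInter_subset_of_mem hQ).trans (hc hQ).1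
    · have : Nonempty c := hne.to_subtype
      exact IsCompact.nonempty_sInter_of_directed_nonempty_isCompact_isClosed
        (fun s hs t ht => by
          rcases hchain.total hs ht with h | h
          · exact ⟨s, hs, subset_rfl, h⟩
          · exact ⟨t, ht, h, subset_rfl⟩)
        (fun s hs => (hc hs).2.1) (fun s hs => (hc hs).2.2.1)
        (fun s hs => (hc hs).2.2.1.isClosed)
    · obtain ⟨Q, hQ⟩ := hne
      exact (hc hQ).2.2.1.of_isClosed_subset
        (isClosed_sInter fun s hs => (hc hs).2.2.1.isClosed) (Set.sInter_subset_of_mem hQ)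
    · exact convex_sInter fun s hs => (hc hs).2.2.2.1
    · intro g m hm s hs
      exact (hc hs).2.2.2.2 g m (hm s hs)

/-- In a minimal set every orbit has the whole set as its closed convex hull. -/
lemma exists_small {Q : Set (Set G → ℝ)} (hQ : Minimal (· ∈ Inv G) Q)
    (φ : (Set G → ℝ) →L[ℝ] ℝ) {m₀ : Set G → ℝ} (hm₀ : m₀ ∈ Q) {ε : ℝ} (hε : 0 < ε)
    {m : Set G → ℝ} (hm : m ∈ Q) : ∃ g : G, φ (act g m) < φ m₀ + ε := by
  obtain ⟨h1, h2, h3, h4, h5⟩ := hQ.prop
  by_contra hcon
  push Not at hcon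
  set H := closure (convexHull ℝ (Set.range fun g : G => act g m)) with hH
  have hrange : (Set.range fun g : G => act g m) ⊆ Q := by
    rintro _ ⟨g, rfl⟩
    exact h5 g m hm
  have hHQ : H ⊆ Q := closure_minimal (convexHull_min hrange h4) h3.isClosed
  have hHinv : H ∈ Inv G := by
    refine ⟨hHQ.trans h1, ?_, h3.of_isClosed_subset isClosed_closure hHQ,
      (convex_convexHull ℝ _).closure, ?_⟩
    · exact ⟨act 1 m, subset_closure (subset_convexHull ℝ _ ⟨1, rfl⟩)⟩
    · intro g x hx
      have h6 : act g '' (convexHull ℝ (Set.range fun g : G => act g m)) ⊆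
          convexHull ℝ (Set.range fun g : G => act g m) := by
        have := (act g).toLinearMap.isLinear.image_convexHull (Set.range fun g : G => act g m)
        have h7 : act g '' (convexHull ℝ (Set.range fun g : G => act g m)) =
            convexHull ℝ (act g '' (Set.range fun g : G => act g m)) := this
        rw [h7]
        refine convexHull_mono ?_
        rintro _ ⟨_, ⟨h, rfl⟩, rfl⟩
        exact ⟨g * h, (act_act g h m).symm⟩
      exact closure_mono h6 (image_closure_subset_closure_image (act g).continuous ⟨x, hx, rfl⟩)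
  have h8 : Q ⊆ H := hQ.le_of_le hHinv hHQ
  have h9 : H ⊆ {x | φ m₀ + ε ≤ φ x} := by
    refine closure_minimal (convexHull_min ?_ ?_) (isClosed_le continuous_const φ.continuous)
    · rintro _ ⟨g, rfl⟩
      exact hcon g
    · exact (convex_halfSpace_ge φ.toLinearMap.isLinear _)
  have h10 := h9 (h8 hm₀)
  have h11 : φ m₀ + ε ≤ φ m₀ := h10
  linarith

/-- The minimax argument. -/
lemma exists_uniform {Q : Set (Set G → ℝ)} (hQ : Minimal (· ∈ Inv G) Q)
    (φ : (Set G → ℝ) →L[ℝ] ℝ) {m₀ : Set G → ℝ} (hm₀ : m₀ ∈ Q) {ε : ℝ} (hε : 0 < ε) :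
    ∃ (t : Finset G) (w : G → ℝ), (∀ g, 0 ≤ w g) ∧ ∑ g ∈ t, w g = 1 ∧
      ∀ m ∈ Q, ∑ g ∈ t, w g * φ (act g m) ≤ φ m₀ + ε := by
  classical
  obtain ⟨h1, h2, h3, h4, h5⟩ := hQ.prop
  obtain ⟨t, ht⟩ := h3.elim_finite_subcover (fun g : G => {m | φ (act g m) < φ m₀ + ε})
    (fun g => isOpen_lt (φ.continuous.comp (act g).continuous) continuous_const)
    (fun m hm => Set.mem_iUnion.2 (exists_small hQ φ hm₀ hε hm))
  set c := φ m₀ + ε with hc
  let L : (Set G → ℝ) →L[ℝ] (t → ℝ) := ContinuousLinearMap.pi fun g : t => φ.comp (act g.1)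
  have hD1 : Convex ℝ (L '' Q) := h4.linear_image L.toLinearMap
  have hD2 : IsCompact (L '' Q) := h3.image L.continuous
  have hO1 : Convex ℝ {x : t → ℝ | ∀ i, c ≤ x i} := by
    intro x hx y hy a b ha hb hab i
    simp only [Pi.add_apply, Pi.smul_apply, smul_eq_mul]
    have h6 := mul_le_mul_of_nonneg_left (hx i) ha
    have h7 := mul_le_mul_of_nonneg_left (hy i) hb
    calc c = a * c + b * c := by rw [← add_mul, hab, one_mul]
      _ ≤ a * x i + b * y i := add_le_add h6 h7
  have hO2 : IsClosed {x : t → ℝ | ∀ i, c ≤ x i} := by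
    rw [Set.ofPred_forall]
    exact isClosed_iInter fun i => isClosed_le continuous_const (continuous_apply i)
  have hdisj : Disjoint (L '' Q) {x : t → ℝ | ∀ i, c ≤ x i} := by
    rw [Set.disjoint_left]
    rintro _ ⟨m, hm, rfl⟩ hx
    obtain ⟨g, hg⟩ := Set.mem_iUnion.1 (ht hm)
    obtain ⟨hgt, hg⟩ := Set.mem_iUnion.1 hg
    exact absurd (hx ⟨g, hgt⟩) (not_le.2 hg)
  obtain ⟨f, u, v, hf1, huv, hf2⟩ := geometric_hahn_banach_compact_closed hD1 hD2 hO1 hO2 hdisj
  -- the coefficients
  set w : t → ℝ := fun i => f (Pi.single i 1) with hw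
  have hfw : ∀ x : t → ℝ, f x = ∑ i, x i * w i := by
    intro x
    have h6 := LinearMap.pi_apply_eq_sum_univ f.toLinearMap x
    have h7 : f x = ∑ i, x i • f (fun j => if i = j then 1 else 0) := h6
    rw [h7]
    refine Finset.sum_congr rfl fun i _ => ?_
    rw [smul_eq_mul, hw]
    have h8 : (fun j => if i = j then (1 : ℝ) else 0) = Pi.single i 1 := by
      funext j
      by_cases hij : i = j
      · subst hij
        simp
      · rw [if_neg hij, Pi.single_eq_of_ne (fun h => hij h.symm)]
    rw [h8]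
  have hcO : (fun _ => c : t → ℝ) ∈ {x : t → ℝ | ∀ i, c ≤ x i} := fun i => le_rfl
  have hvc := hf2 _ hcO
  have hwnn : ∀ i, 0 ≤ w i := by
    intro i
    by_contra hneg
    push Not at hneg
    set N : ℝ := (f (fun _ => c) - v) / (- w i) with hN
    have hN0 : 0 ≤ N := div_nonneg (by linarith) (by linarith)
    have h6 : (fun _ => c : t → ℝ) + N • Pi.single i 1 ∈ {x : t → ℝ | ∀ i, c ≤ x i} := by
      intro j
      simp only [Pi.add_apply, Pi.smul_apply, smul_eq_mul]
      by_cases hij : j = i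
      · subst hij
        rw [Pi.single_eq_same]
        linarith
      · rw [Pi.single_eq_of_ne hij]
        linarith
    have h7 := hf2 _ h6
    rw [map_add, map_smul, smul_eq_mul] at h7
    have h8 : N * w i = -(f (fun _ => c) - v) := by
      rw [hN]
      have : w i ≠ 0 := hneg.ne
      field_simp
    have h9 : f (Pi.single i 1) = w i := rfl
    rw [h9, h8] at h7
    linarith
  have hWpos : 0 < ∑ i, w i := by
    rcases (Finset.sum_nonneg fun i _ => hwnn i : 0 ≤ ∑ i, w i).lt_or_eq with h | h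
    · exact h
    · exfalso
      have h0 : ∀ i, w i = 0 := fun i =>
        (Finset.sum_eq_zero_iff_of_nonneg (fun i _ => hwnn i)).1 h.symm i (Finset.mem_univ i)
      obtain ⟨m, hm⟩ := h2
      have h6 := hf1 _ ⟨m, hm, rfl⟩
      rw [hfw] at h6 hvc
      simp only [h0, mul_zero, Finset.sum_const_zero] at h6 hvc
      linarith
  set W := ∑ i, w i with hW
  refine ⟨t, fun g => if h : g ∈ t then w ⟨g, h⟩ / W else 0, fun g => ?_, ?_, fun m hm => ?_⟩
  · dsimp only
    split_ifs with h
    · exact div_nonneg (hwnn _) hWpos.le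
    · exact le_rfl
  · rw [← Finset.sum_coe_sort t]
    have h6 : ∀ i : t, (if h : (i : G) ∈ t then w ⟨i, h⟩ / W else 0) = w i / W := fun i => by
      rw [dif_pos i.2]
    rw [Finset.sum_congr rfl (fun i _ => h6 i), ← Finset.sum_div]
    exact div_self hWpos.ne'
  · rw [← Finset.sum_coe_sort t]
    have h6 : ∀ i : t, (if h : (i : G) ∈ t then w ⟨i, h⟩ / W else 0) * φ (act (i : G) m) =
        (L m i * w i) / W := fun i => by
      rw [dif_pos i.2]
      change w i / W * φ (act (i : G) m) = (φ (act (i : G) m) * w i) / W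
      ring
    rw [Finset.sum_congr rfl (fun i _ => h6 i), ← Finset.sum_div, ← hfw, div_le_iff₀ hWpos]
    have h7 := hf1 _ ⟨m, hm, rfl⟩
    have h8 : f (fun _ => c) = c * W := by rw [hfw, hW, Finset.mul_sum]
    rw [h8] at hvc
    linarith

open Classical in
/-- The main estimate: a function with small averages is small on most of the points. -/
lemma mass_bound {F : G → ℝ} {α β : ℝ} {t : Finset G} {w : G → ℝ} {ε : ℝ} (hβ : 0 < β)
    (hα : ∀ y, α ≤ F y) (hw : ∀ g, 0 ≤ w g) (hw1 : ∑ g ∈ t, w g = 1)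
    (h : ∀ y, ∑ g ∈ t, w g * F (g * y) ≤ α + ε) {A : Set G} (hA : ∀ y ∈ A, α + β ≤ F y) :
    ∃ p ∈ POmega G, ∀ y : G, mass p ((fun a => a * y) '' A) ≤ ε / β := by
  set p : G →₀ ℝ := Finsupp.onFinset t (fun g => if g ∈ t then w g else 0)
    (fun g hg => by
      by_contra h'
      exact hg (if_neg h')) with hp
  have hsum : ∀ f : G → ℝ → ℝ, (∀ g, f g 0 = 0) → p.sum f = ∑ g ∈ t, f g (w g) := by
    intro f hf
    rw [hp, Finsupp.onFinset_sum _ (fun g => hf g)]
    exact Finset.sum_congr rfl fun g hg => by rw [if_pos hg]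
  refine ⟨p, ⟨fun g => ?_, ?_⟩, fun y => ?_⟩
  · rw [hp, Finsupp.onFinset_apply]
    split_ifs
    · exact hw g
    · exact le_rfl
  · rw [hsum _ (fun _ => rfl), hw1]
  · unfold mass
    rw [hsum _ (fun g => by simp)]
    rw [le_div_iff₀ hβ, Finset.sum_mul]
    have h1 := h y⁻¹
    have h2 : ∀ g ∈ t, (if g ∈ (fun a => a * y) '' A then w g else 0) * β ≤
        w g * (F (g * y⁻¹) - α) := by
      intro g _
      split_ifs with hg
      · obtain ⟨a, ha, rfl⟩ := hg
        have h3 := hA a ha
        simp only [mul_inv_cancel_right]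
        exact mul_le_mul_of_nonneg_left (by linarith) (hw _)
      · rw [zero_mul]
        exact mul_nonneg (hw g) (by have := hα (g * y⁻¹); linarith)
    refine (Finset.sum_le_sum h2).trans ?_
    simp only [mul_sub]
    rw [Finset.sum_sub_distrib, ← Finset.sum_mul, hw1, one_mul]
    linarith

/-- **Main theorem.** On a non-amenable group there is a set `A` such that `A` and its complement
have `is₁₂`-density zero. -/
theorem exists_null_partition (hG : ¬ IsAmenable G) : ∃ A : Set G, is12 A = 0 ∧ is12 Aᶜ = 0 := by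
  classical
  obtain ⟨Q, hQ⟩ := exists_minimal (G := G)
  obtain ⟨h1, ⟨m, hm⟩, h3, h4, h5⟩ := hQ.prop
  -- a set `C` on which the measures differ
  obtain ⟨g, C, hC⟩ : ∃ (g : G) (C : Set G), act g m C ≠ m C := by
    by_contra hcon
    push Not at hcon
    apply hG
    refine ⟨m, (h1 hm).1, (h1 hm).2.1, (h1 hm).2.2, fun g A => ?_⟩
    rw [← hcon g⁻¹ A, act_apply]
    congr 1
    ext x
    constructor
    · rintro ⟨y, hy, rfl⟩
      simpa using hy
    · intro hx
      exact ⟨g⁻¹ * x, hx, by simp⟩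
  let φ : (Set G → ℝ) →L[ℝ] ℝ := ContinuousLinearMap.proj C
  have hφ : ∀ m, φ m = m C := fun _ => rfl
  obtain ⟨ma, hma, hmin⟩ := h3.exists_isMinOn ⟨m, hm⟩ φ.continuous.continuousOn
  obtain ⟨mb, hmb, hmax⟩ := h3.exists_isMaxOn ⟨m, hm⟩ φ.continuous.continuousOn
  have hab : φ ma < φ mb := by
    rcases lt_or_gt_of_ne hC with h | h
    · exact lt_of_le_of_lt (hmin (h5 g m hm)) (lt_of_lt_of_le h (hmax hm))
    · exact lt_of_le_of_lt (hmin hm) (lt_of_lt_of_le h (hmax (h5 g m hm)))
  set F : G → ℝ := fun y => φ (act y m) with hF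
  have hFa : ∀ y, φ ma ≤ F y := fun y => hmin (h5 y m hm)
  have hFb : ∀ y, F y ≤ φ mb := fun y => hmax (h5 y m hm)
  set β := (φ mb - φ ma) / 2 with hβ
  have hβ0 : 0 < β := by rw [hβ]; linarith
  refine ⟨{y | φ ma + β ≤ F y}, is12_eq_zero fun ε hε => ?_, is12_eq_zero fun ε hε => ?_⟩
  · obtain ⟨t, w, hw, hw1, hw2⟩ := exists_uniform hQ φ hma (ε := ε * β) (by positivity)
    obtain ⟨p, hp, hp2⟩ := mass_bound (F := F) (α := φ ma) hβ0 hFa hw hw1
      (fun y => by
        have := hw2 _ (h5 y m hm)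
        simpa only [act_act] using this) (A := {y | φ ma + β ≤ F y}) (fun y hy => hy)
    refine ⟨p, hp, fun y => (hp2 y).trans (le_of_eq ?_)⟩
    field_simp
  · obtain ⟨t, w, hw, hw1, hw2⟩ := exists_uniform hQ (-φ) hmb (ε := ε * β) (by positivity)
    obtain ⟨p, hp, hp2⟩ := mass_bound (F := fun y => - F y) (α := - φ mb) hβ0
      (fun y => by have := hFb y; linarith) hw hw1
      (fun y => by
        have := hw2 _ (h5 y m hm)
        simpa only [act_act, _root_.neg_apply] using this)
      (A := {y | φ ma + β ≤ F y}ᶜ) (fun y hy => by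
        have h6 : F y < φ ma + β := not_le.1 hy
        have h7 : φ ma + β = φ mb - β := by rw [hβ]; ring
        linarith)
    refine ⟨p, hp, fun y => (hp2 y).trans (le_of_eq ?_)⟩
    field_simp

/-- Property (d) implies amenability. -/
theorem amenable_of_propertyD (h : PropertyD G) : IsAmenable G := by
  classical
  by_contra hG
  obtain ⟨A, h1, h2⟩ := exists_null_partition hG
  obtain ⟨i, hi⟩ := h 2 (by norm_num) (fun x => if x ∈ A then 0 else 1)
  have h3 : {x : G | (if x ∈ A then (0 : Fin 2) else 1) = i} = A ∨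
      {x : G | (if x ∈ A then (0 : Fin 2) else 1) = i} = Aᶜ := by
    fin_cases i
    · left
      ext x
      by_cases hx : x ∈ A <;> simp [hx]
    · right
      ext x
      by_cases hx : x ∈ A <;> simp [hx]
  rcases h3 with h3 | h3
  · rw [h3, h1] at hi
    exact lt_irrefl _ hi
  · rw [h3, h2] at hi
    exact lt_irrefl _ hi

/-- Property (a) implies amenability. -/
theorem amenable_of_propertyA (h : PropertyA G) : IsAmenable G :=
  amenable_of_propertyD fun n hn c => by
    obtain ⟨i, hi⟩ := h n hn c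
    exact ⟨i, lt_of_lt_of_le (by positivity) hi⟩

end Pool.Agent.TH87.IS
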