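import Mathlib

set_option autoImplicit false

/-!
# The density `is₁₂` on a group
-/

namespace Pool.Agent.TH87.IS

universe u

/-- `G` is amenable: there is a left-invariant finitely additive probability measure on all
subsets of `G`. -/
def IsAmenable (G : Type u) [Group G] : Prop :=
  ∃ m : Set G → ℝ, (∀ A, 0 ≤ m A) ∧ m Set.univ = 1 ∧
    (∀ A B, Disjoint A B → m (A ∪ B) = m A + m B) ∧
    ∀ (g : G) (A : Set G), m ((fun x => g * x) '' A) = m A

/-- The finitely supported probability measures on `G`: the function `p` gives the point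
masses. -/
def POmega (G : Type u) : Set (G →₀ ℝ) := {p | (∀ g, 0 ≤ p g) ∧ p.sum (fun _ a => a) = 1}

open Classical in
/-- The mass of the set `A`. -/
noncomputable def mass {G : Type u} (p : G →₀ ℝ) (A : Set G) : ℝ :=
  p.sum (fun g a => if g ∈ A then a else 0)

/-- The density `is₁₂(A) = inf_{μ} sup_{y} μ(A y)`. -/
noncomputable def is12 {G : Type u} [Group G] (A : Set G) : ℝ :=
  ⨅ p : POmega G, ⨆ y : G, mass (p : G →₀ ℝ) ((fun a => a * y) '' A)

section basic

variable {G : Type u}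

lemma mass_nonneg {p : G →₀ ℝ} (hp : p ∈ POmega G) (A : Set G) : 0 ≤ mass p A := by
  classical
  unfold mass
  refine Finset.sum_nonneg fun g _ => ?_
  simp only
  split_ifs
  · exact hp.1 g
  · exact le_rfl

lemma mass_le_one {p : G →₀ ℝ} (hp : p ∈ POmega G) (A : Set G) : mass p A ≤ 1 := by
  classical
  rw [← hp.2]
  unfold mass
  refine Finset.sum_le_sum fun g _ => ?_
  simp only
  split_ifs
  · exact le_rfl
  · exact hp.1 g

lemma bdd_mass [Group G] {p : G →₀ ℝ} (hp : p ∈ POmega G) (A : Set G) :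
    BddAbove (Set.range fun y : G => mass p ((fun a => a * y) '' A)) := by
  refine ⟨1, ?_⟩
  rintro _ ⟨y, rfl⟩
  exact mass_le_one hp _

lemma is12_nonneg [Group G] (A : Set G) : 0 ≤ is12 A := by
  unfold is12
  exact Real.iInf_nonneg fun p => Real.iSup_nonneg fun y => mass_nonneg p.2 _

lemma is12_eq_zero [Group G] {A : Set G} (h : ∀ ε : ℝ, 0 < ε → ∃ p ∈ POmega G, ∀ y : G,
    mass p ((fun a => a * y) '' A) ≤ ε) : is12 A = 0 := by
  refine le_antisymm (le_of_forall_pos_le_add fun ε hε => ?_) (is12_nonneg A)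
  obtain ⟨p, hp, h1⟩ := h ε hε
  have hbdd : BddBelow (Set.range fun p : POmega G =>
      ⨆ y : G, mass (p : G →₀ ℝ) ((fun a => a * y) '' A)) := by
    refine ⟨0, ?_⟩
    rintro _ ⟨q, rfl⟩
    exact Real.iSup_nonneg fun y => mass_nonneg q.2 _
  rw [zero_add]
  exact (ciInf_le hbdd ⟨p, hp⟩).trans (ciSup_le h1)

end basic

/-- Property (a): every partition into `n` cells has a cell with `is₁₂(A) ≥ 1 / n`. -/
def PropertyA (G : Type u) [Group G] : Prop :=
  ∀ n : ℕ, 1 ≤ n → ∀ c : G → Fin n, ∃ i : Fin n, 1 / (n : ℝ) ≤ is12 {x | c x = i}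

/-- Property (d): every partition into `n` cells has a cell with `is₁₂(A) > 0`. -/
def PropertyD (G : Type u) [Group G] : Prop :=
  ∀ n : ℕ, 1 ≤ n → ∀ c : G → Fin n, ∃ i : Fin n, 0 < is12 {x | c x = i}

end Pool.Agent.TH87.IS
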